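import Mathlib
import Pool.Agent.TH119.GO.Sub

/-!
# Burnside's theorem and Schur's lemma for matrix representations
-/

set_option autoImplicit false
set_option linter.unusedSectionVars false

namespace Pool.Agent.TH119.PP

open Matrix
open Pool.Agent.TH119.OP (SS sp mem_sp mul_mem_sp)
open Pool.Agent.TH119.GO (Irr)

variable {G : Type*} [Group G] {k : Type*} [Field k] {n : ℕ}

theorem sp_mul (ρ : G →* GL (Fin n) k) {x y : Matrix (Fin n) (Fin n) k} (hx : x ∈ sp ρ)
    (hy : y ∈ sp ρ) : x * y ∈ sp ρ := by
  unfold sp at hy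
  induction hy using Submodule.span_induction with
  | mem y hy =>
    obtain ⟨g, rfl⟩ := hy
    exact mul_mem_sp ρ hx g
  | zero => rw [mul_zero]; exact Submodule.zero_mem _
  | add y z _ _ hy hz => rw [mul_add]; exact Submodule.add_mem _ hy hz
  | smul c y _ hy => rw [mul_smul_comm]; exact Submodule.smul_mem _ _ hy

/-- The span of the image as an algebra of endomorphisms. -/
noncomputable def alg (ρ : G →* GL (Fin n) k) : Subalgebra k (Module.End k (Fin n → k)) where
  carrier := {f | LinearMap.toMatrix' f ∈ sp ρ}
  mul_mem' := by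
    intro a b ha hb
    show LinearMap.toMatrix' (a * b) ∈ sp ρ
    have : LinearMap.toMatrix' (a * b) = LinearMap.toMatrix' a * LinearMap.toMatrix' b :=
      LinearMap.toMatrix'_mul a b
    rw [this]
    exact sp_mul ρ ha hb
  add_mem' := by
    intro a b ha hb
    show LinearMap.toMatrix' (a + b) ∈ sp ρ
    rw [map_add]
    exact Submodule.add_mem _ ha hb
  algebraMap_mem' := by
    intro c
    have h1 : LinearMap.toMatrix' (algebraMap k (Module.End k (Fin n → k)) c) =
        c • (ρ 1 : Matrix (Fin n) (Fin n) k) := by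
      rw [map_one, Units.val_one, ← LinearMap.toMatrix'_one, ← map_smul]
      rfl
    show LinearMap.toMatrix' (algebraMap k (Module.End k (Fin n → k)) c) ∈ sp ρ
    rw [h1]
    exact Submodule.smul_mem _ _ (mem_sp ρ 1)

theorem mem_alg (ρ : G →* GL (Fin n) k) (g : G) :
    (Matrix.toLin' (ρ g : Matrix (Fin n) (Fin n) k) : Module.End k (Fin n → k)) ∈ alg ρ := by
  show LinearMap.toMatrix' (Matrix.toLin' (ρ g : Matrix (Fin n) (Fin n) k)) ∈ sp ρ
  rw [LinearMap.toMatrix'_toLin']
  exact mem_sp ρ g

/-- **Burnside's theorem.** -/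
theorem sp_top [IsAlgClosed k] (hn : 0 < n) (ρ : G →* GL (Fin n) k) (hirr : Irr ρ) :
    sp ρ = ⊤ := by
  classical
  have hne : Nonempty (Fin n) := ⟨⟨0, hn⟩⟩
  let S := alg ρ
  let V := Fin n → k
  have hsimple : IsSimpleModule S V := by
    have h1 : ∀ N : Submodule S V, N = ⊥ ∨ N = ⊤ := by
      intro N
      have h2 := hirr (N.restrictScalars k) (by
        intro g x hx
        have h3 : (⟨_, mem_alg ρ g⟩ : S) • x ∈ N := N.smul_mem _ hx
        have h4 : (⟨_, mem_alg ρ g⟩ : S) • x = (ρ g : Matrix (Fin n) (Fin n) k).mulVec x := by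
          show (Matrix.toLin' (ρ g : Matrix (Fin n) (Fin n) k)) x = _
          rw [Matrix.toLin'_apply]
        rw [h4] at h3
        exact h3)
      rcases h2 with h2 | h2
      · left
        rw [eq_bot_iff]
        intro x hx
        have h3 : x ∈ N.restrictScalars k := hx
        rw [h2, Submodule.mem_bot] at h3
        rw [h3]
        exact Submodule.zero_mem _
      · right
        rw [eq_top_iff]
        intro x _
        have h3 : x ∈ N.restrictScalars k := by rw [h2]; trivial
        exact h3
    have : IsSimpleOrder (Submodule S V) := { eq_bot_or_eq_top := h1 }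
    exact { }
  have hend : Function.Bijective (algebraMap k (Module.End S V)) :=
    IsSimpleModule.algebraMap_end_bijective_of_isAlgClosed (A := S) (V := V) k
  rw [eq_top_iff]
  intro M _
  -- the endomorphism of the module over the commutant
  let f : V →ₗ[k] V := Matrix.toLin' M
  let f' : Module.End (Module.End S V) V :=
    { toFun := f
      map_add' := map_add f
      map_smul' := by
        intro e x
        obtain ⟨c, rfl⟩ := hend.2 e
        have h1 : ∀ y : V, (algebraMap k (Module.End S V) c) • y = c • y := fun y => rfl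
        rw [h1, map_smul]
        exact (h1 _).symm }
  obtain ⟨r, hr⟩ := jacobson_density (R := S) (M := V) f' (Finset.univ.image fun i : Fin n => (Pi.single i 1 : V))
  have h2 : (r : Module.End k V) = f := by
    refine LinearMap.pi_ext' fun i => LinearMap.ext_ring ?_
    have h3 := hr (Pi.single i 1) (Finset.mem_image_of_mem _ (Finset.mem_univ i))
    exact h3.symm
  have h4 : LinearMap.toMatrix' (r : Module.End k V) ∈ sp ρ := r.2
  rw [h2] at h4
  show M ∈ sp ρ
  rwa [LinearMap.toMatrix'_toLin'] at h4

/-- **Schur's lemma.** -/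
theorem schur [IsAlgClosed k] (hn : 0 < n) (ρ : G →* GL (Fin n) k) (hirr : Irr ρ)
    (Y : Matrix (Fin n) (Fin n) k) (hY : ∀ g, Y * (ρ g : Matrix (Fin n) (Fin n) k) = ρ g * Y) :
    ∃ c : k, Y = Matrix.scalar (Fin n) c := by
  have h1 : ∀ X : Matrix (Fin n) (Fin n) k, Commute X Y := by
    intro X
    have hX : X ∈ sp ρ := by rw [sp_top hn ρ hirr]; trivial
    unfold sp at hX
    induction hX using Submodule.span_induction with
    | mem X hX =>
      obtain ⟨g, rfl⟩ := hX
      exact (hY g).symm
    | zero => exact Commute.zero_left _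
    | add a b _ _ ha hb => exact ha.add_left hb
    | smul c a _ ha => exact ha.smul_left c
  obtain ⟨c, hc⟩ := Matrix.mem_range_scalar_of_commute_single (M := Y) fun i j _ => h1 _
  exact ⟨c, hc.symm⟩

end Pool.Agent.TH119.PP
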