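import Mathlib
import Pool.Agent.TH119.GO.Sub
import Pool.Agent.TH119.PP.Burn

/-!
# Integrality from divisibility on a coset
-/

set_option autoImplicit false
set_option linter.unusedSectionVars false

namespace Pool.Agent.TH119.PP

open Polynomial Matrix
open Pool.Agent.TH119.OP (SS sp mem_sp)
open Pool.Agent.TH119.GO

variable {G : Type*} [Group G] {k : Type*} [Field k] {m n : ℕ}

/-- The divisibility condition. -/
def Dv (N : ℕ) (A : Matrix (Fin n) (Fin n) k) (B : Matrix (Fin m) (Fin m) k) : Prop :=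
  A.charpoly ∣ (expand k N (B ^ N).charpoly) ^ n

/-- The condition on eigenvalues implies divisibility. -/
theorem dv_of_roots [IsAlgClosed k] {N : ℕ} (A : Matrix (Fin n) (Fin n) k)
    (B : Matrix (Fin m) (Fin m) k)
    (h : ∀ α ∈ A.charpoly.roots, ∃ β ∈ B.charpoly.roots, α ^ N = β ^ N) : Dv N A B := by
  classical
  have hroot : ∀ α ∈ A.charpoly.roots, (X - C α) ∣ expand k N (B ^ N).charpoly := by
    intro α hα
    obtain ⟨β, hβ, hαβ⟩ := h α hα
    rw [dvd_iff_isRoot, IsRoot.def, expand_eval, hαβ, Matrix.eval_charpoly]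
    have h1 : (Matrix.scalar (Fin m) β - B).det = 0 := by
      rw [← Matrix.eval_charpoly]
      exact (mem_roots'.1 hβ).2
    have h2 : (Matrix.scalar (Fin m) β - B) * ∑ i ∈ Finset.range N,
        (Matrix.scalar (Fin m) β) ^ i * B ^ (N - 1 - i) =
        (Matrix.scalar (Fin m) β) ^ N - B ^ N :=
      Commute.mul_geom_sum₂ (Matrix.scalar_commute _ (fun _ => Commute.all _ _) _) N
    rw [map_pow, ← h2, Matrix.det_mul, h1, zero_mul]
  have hsplit : A.charpoly = (A.charpoly.roots.map fun a => X - C a).prod :=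
    (IsAlgClosed.splits A.charpoly).eq_prod_roots_of_monic (Matrix.charpoly_monic A)
  have hcard : Multiset.card A.charpoly.roots = n := by
    have h1 := (IsAlgClosed.splits A.charpoly).natDegree_eq_card_roots
    rw [← h1, Matrix.charpoly_natDegree_eq_dim, Fintype.card_fin]
  rw [Dv, hsplit]
  have key : ∀ s : Multiset k, (∀ α ∈ s, (X - C α) ∣ expand k N (B ^ N).charpoly) →
      (s.map fun a => X - C a).prod ∣ (expand k N (B ^ N).charpoly) ^ Multiset.card s := by
    intro s
    induction s using Multiset.induction_on with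
    | empty => intro _; simp
    | cons a s ih =>
      intro hs
      rw [Multiset.map_cons, Multiset.prod_cons, Multiset.card_cons, pow_succ']
      exact mul_dvd_mul (hs a (Multiset.mem_cons_self a s))
        (ih fun α hα => hs α (Multiset.mem_cons_of_mem hα))
  have h3 := key _ hroot
  rwa [hcard] at h3

theorem root_inv (A : GL (Fin n) k) (α : k)
    (h : ((A⁻¹ : GL (Fin n) k) : Matrix (Fin n) (Fin n) k).charpoly.eval α = 0) :
    α ≠ 0 ∧ (A : Matrix (Fin n) (Fin n) k).charpoly.eval α⁻¹ = 0 := by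
  classical
  rw [Matrix.eval_charpoly] at h ⊢
  have hA : (A : Matrix (Fin n) (Fin n) k).det ≠ 0 :=
    ((Matrix.isUnit_iff_isUnit_det _).1 (Units.isUnit A)).ne_zero
  have hA' : ((A⁻¹ : GL (Fin n) k) : Matrix (Fin n) (Fin n) k).det ≠ 0 :=
    ((Matrix.isUnit_iff_isUnit_det _).1 (Units.isUnit A⁻¹)).ne_zero
  have hmul : (A : Matrix (Fin n) (Fin n) k) * ((A⁻¹ : GL (Fin n) k) : Matrix (Fin n) (Fin n) k) =
      1 := by
    rw [← Units.val_mul, mul_inv_cancel, Units.val_one]
  have hα : α ≠ 0 := by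
    rintro rfl
    rw [map_zero, zero_sub, Matrix.det_neg] at h
    rcases mul_eq_zero.1 h with h1 | h1
    · exact pow_ne_zero _ (neg_ne_zero.2 one_ne_zero) h1
    · exact hA' h1
  refine ⟨hα, ?_⟩
  have h1 : (A : Matrix (Fin n) (Fin n) k) * (Matrix.scalar (Fin n) α -
      ((A⁻¹ : GL (Fin n) k) : Matrix (Fin n) (Fin n) k)) =
      -(Matrix.scalar (Fin n) α * (Matrix.scalar (Fin n) α⁻¹ - A)) := by
    rw [mul_sub, hmul, mul_sub, ← map_mul, mul_inv_cancel₀ hα, map_one, neg_sub]
    congr 1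
    exact (Matrix.scalar_commute α (fun _ => Commute.all _ _) _).symm
  have h2 := congrArg Matrix.det h1
  rw [Matrix.det_mul, h, mul_zero, Matrix.det_neg, Matrix.det_mul] at h2
  rcases mul_eq_zero.1 h2.symm with h3 | h3
  · exact absurd h3 (pow_ne_zero _ (neg_ne_zero.2 one_ne_zero))
  · rcases mul_eq_zero.1 h3 with h4 | h4
    · exfalso
      rw [Matrix.scalar_apply, Matrix.det_diagonal, Finset.prod_const] at h4
      exact pow_ne_zero _ hα h4
    · exact h4

/-- The condition for the inverses. -/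
theorem roots_inv {N : ℕ} (A : GL (Fin n) k) (B : GL (Fin m) k)
    (h : ∀ α ∈ (A : Matrix (Fin n) (Fin n) k).charpoly.roots,
      ∃ β ∈ (B : Matrix (Fin m) (Fin m) k).charpoly.roots, α ^ N = β ^ N) :
    ∀ α ∈ ((A⁻¹ : GL (Fin n) k) : Matrix (Fin n) (Fin n) k).charpoly.roots,
      ∃ β ∈ ((B⁻¹ : GL (Fin m) k) : Matrix (Fin m) (Fin m) k).charpoly.roots, α ^ N = β ^ N := by
  intro α hα
  obtain ⟨h1, h2⟩ := root_inv A α (mem_roots'.1 hα).2
  obtain ⟨β, hβ, hαβ⟩ := h α⁻¹ (mem_roots'.2 ⟨(Matrix.charpoly_monic _).ne_zero, h2⟩)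
  have h3 : ((B⁻¹⁻¹ : GL (Fin m) k) : Matrix (Fin m) (Fin m) k).charpoly.eval β = 0 := by
    rw [inv_inv]
    exact (mem_roots'.1 hβ).2
  obtain ⟨h4, h5⟩ := root_inv B⁻¹ β h3
  refine ⟨β⁻¹, mem_roots'.2 ⟨(Matrix.charpoly_monic _).ne_zero, h5⟩, ?_⟩
  rw [inv_pow, ← hαβ, inv_pow, inv_inv]

/-- Integrality of the traces. -/
theorem integral_trace_c (W : G →* GL (Fin m) k) (ρ : G →* GL (Fin n) k)
    (s : Matrix (Fin n) (Fin n) k) (w : Matrix (Fin m) (Fin m) k) (N : ℕ) (hN : 0 < N)
    (hD : ∀ g, Dv N (s * (ρ g : Matrix (Fin n) (Fin n) k)) (w * (W g : Matrix _ _ k))) (h : G) :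
    IsIntegral (AA W) (fun g => (s * ((ρ g : Matrix (Fin n) (Fin n) k) * ρ h)).trace) := by
  classical
  let Nn : Matrix (Fin n) (Fin n) (G → k) := Matrix.of fun i j => fun g =>
    (s * (ρ (g * h) : Matrix (Fin n) (Fin n) k)) i j
  let M : Matrix (Fin m) (Fin m) (AA W) := Matrix.of fun i j =>
    ⟨fun g => (w * (W (g * h) : Matrix (Fin m) (Fin m) k)) i j, by
    have : (fun g => (w * (W (g * h) : Matrix (Fin m) (Fin m) k)) i j) =
        ∑ l, ∑ l', (w i l' * ent W l j h) • ent W l' l := by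
      funext g
      rw [Finset.sum_apply]
      simp only [Finset.sum_apply, Pi.smul_apply, smul_eq_mul]
      rw [Matrix.mul_apply, Finset.sum_comm]
      refine Finset.sum_congr rfl fun l' _ => ?_
      have := ent_mul W l' j g h
      rw [ent] at this
      rw [this, Finset.mul_sum]
      refine Finset.sum_congr rfl fun l _ => ?_
      ring
    rw [this]
    exact Subalgebra.sum_mem _ fun l _ => Subalgebra.sum_mem _ fun l' _ =>
      Subalgebra.smul_mem _ (ent_mem W _ _) _⟩
  have hNn : ∀ g, Nn.map (Pi.evalRingHom (fun _ : G => k) g) =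
    s * (ρ (g * h) : Matrix _ _ k) := fun g => by ext i j; rfl
  have hM : ∀ g, (M.map (algebraMap (AA W) (G → k))).map (Pi.evalRingHom (fun _ : G => k) g) =
      w * (W (g * h) : Matrix _ _ k) := fun g => by ext i j; rfl
  let q : (AA W)[X] := (expand (AA W) N (M ^ N).charpoly) ^ n
  have hq : q.Monic := ((Matrix.charpoly_monic _).expand hN).pow n
  have hdvd : Nn.charpoly ∣ q.map (algebraMap (AA W) (G → k)) := by
    refine dvd_of_pointwise (Matrix.charpoly_monic _) fun g => ?_
    rw [← Matrix.charpoly_map, hNn]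
    have h1 : (q.map (algebraMap (AA W) (G → k))).map (Pi.evalRingHom (fun _ : G => k) g) =
        (expand k N ((w * (W (g * h) : Matrix _ _ k)) ^ N).charpoly) ^ n := by
      rw [Polynomial.map_pow, Polynomial.map_pow, map_expand, map_expand, ← Matrix.charpoly_map,
        ← Matrix.charpoly_map, Matrix.map_pow, Matrix.map_pow, hM]
    rw [h1]
    exact hD (g * h)
  have h1 := Polynomial.isIntegral_coeff_of_dvd q Nn.charpoly hq
    (Matrix.charpoly_monic _) hdvd
  rcases Nat.eq_zero_or_pos n with rfl | hn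
  · have : (fun g => (s * ((ρ g : Matrix (Fin 0) (Fin 0) k) * ρ h)).trace) = 0 := by
      funext g
      rw [Matrix.trace_fin_zero]
      rfl
    rw [this]
    exact isIntegral_zero
  · have : Nonempty (Fin n) := ⟨⟨0, hn⟩⟩
    have h2 : (fun g => (s * ((ρ g : Matrix (Fin n) (Fin n) k) * ρ h)).trace) = Nn.trace := by
      funext g
      rw [← Units.val_mul, ← map_mul, Matrix.trace, Matrix.trace, Finset.sum_apply]
      rfl
    rw [h2, Matrix.trace_eq_neg_charpoly_coeff]
    exact (h1 _).neg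

/-- Integrality of the coefficients. -/
theorem integral_ent_c (W : G →* GL (Fin m) k) (ρ : G →* GL (Fin n) k) (hsp : sp ρ = ⊤)
    (s : GL (Fin n) k) (w : Matrix (Fin m) (Fin m) k) (N : ℕ) (hN : 0 < N)
    (hD : ∀ g, Dv N ((s : Matrix (Fin n) (Fin n) k) * (ρ g : Matrix (Fin n) (Fin n) k))
      (w * (W g : Matrix _ _ k))) (i j : Fin n) : IsIntegral (AA W) (ent ρ i j) := by
  classical
  set E : Matrix (Fin n) (Fin n) k := Matrix.single j i 1 *
    ((s⁻¹ : GL (Fin n) k) : Matrix (Fin n) (Fin n) k) with hE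
  have h1 : E ∈ Submodule.span k (Set.range fun g => (ρ g : Matrix (Fin n) (Fin n) k)) := by
    have : E ∈ sp ρ := by rw [hsp]; trivial
    exact this
  obtain ⟨c, hc⟩ := (Finsupp.mem_span_range_iff_exists_finsupp).1 h1
  have h2 : ent ρ i j = ∑ h ∈ c.support, algebraMap k (G → k) (c h) *
      (fun g => ((s : Matrix (Fin n) (Fin n) k) *
        ((ρ g : Matrix (Fin n) (Fin n) k) * ρ h)).trace) := by
    funext g
    rw [Finset.sum_apply]
    have h3 : ((s : Matrix (Fin n) (Fin n) k) * ((ρ g : Matrix (Fin n) (Fin n) k) * E)).trace =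
        ent ρ i j g := by
      have h4 : (s : Matrix (Fin n) (Fin n) k) * ((ρ g : Matrix (Fin n) (Fin n) k) * E) =
          ((s : Matrix (Fin n) (Fin n) k) * ((ρ g : Matrix (Fin n) (Fin n) k) *
            Matrix.single j i 1)) * ((s⁻¹ : GL (Fin n) k) : Matrix (Fin n) (Fin n) k) := by
        rw [hE]
        simp only [mul_assoc]
      rw [h4, Matrix.trace_mul_comm, ← mul_assoc, ← Units.val_mul, inv_mul_cancel,
        Units.val_one, one_mul, Matrix.trace_mul_single]
      simp [ent]
    rw [← h3, ← hc, Finsupp.sum, Finset.mul_sum, Finset.mul_sum, Matrix.trace_sum]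
    refine Finset.sum_congr rfl fun h _ => ?_
    rw [mul_smul_comm, mul_smul_comm, Matrix.trace_smul]
    rfl
  rw [h2]
  refine IsIntegral.sum _ fun h _ => IsIntegral.mul ?_ (integral_trace_c W ρ s w N hN hD h)
  exact isIntegral_algebraMap (R := AA W) (A := G → k) (x := algebraMap k (AA W) _)

end Pool.Agent.TH119.PP
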