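import Mathlib
import Pool.Agent.TH119.PP.Gen
import Pool.Agent.TH119.OP.Haar

/-!
# Zariski closed sets of positive Haar measure contain cosets of open subgroups
-/

set_option autoImplicit false
set_option linter.unusedSectionVars false

namespace Pool.Agent.TH119.PP

open MeasureTheory
open Pool.Agent.TH119.GO (AA lt lt_mem lt_apply fg_A)

variable {G : Type*} [Group G] {k : Type*} [Field k] {m n : ℕ}

/-- The zero set. -/
def zs {V : G →* GL (Fin m) k} (I : Ideal (AA V)) : Set G := {g | ∀ a ∈ I, (a : G → k) g = 0}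

/-- Evaluation. -/
def evA (V : G →* GL (Fin m) k) (h : G) : AA V →+* k where
  toFun a := (a : G → k) h
  map_one' := rfl
  map_mul' _ _ := rfl
  map_zero' := rfl
  map_add' _ _ := rfl

/-- Translation. -/
def trA (V : G →* GL (Fin m) k) (g : G) : AA V →+* AA V where
  toFun a := ⟨lt k g a, lt_mem V g a.2⟩
  map_one' := rfl
  map_mul' _ _ := rfl
  map_zero' := rfl
  map_add' _ _ := rfl

/-- The sum of an ideal and its translate. -/
def jn {V : G →* GL (Fin m) k} (I : Ideal (AA V)) (g : G) : Ideal (AA V) :=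
  I ⊔ Ideal.map (trA V g) I

theorem le_jn {V : G →* GL (Fin m) k} (I : Ideal (AA V)) (g : G) : I ≤ jn I g := le_sup_left

theorem tr_mem_jn {V : G →* GL (Fin m) k} (I : Ideal (AA V)) (g : G) (a : AA V) (ha : a ∈ I) :
    trA V g a ∈ jn I g :=
  (le_sup_right : Ideal.map (trA V g) I ≤ jn I g) (Ideal.mem_map_of_mem (trA V g) ha)

theorem mem_zs_jn {V : G →* GL (Fin m) k} (I : Ideal (AA V)) (g h : G) (h1 : h ∈ zs I)
    (h2 : g * h ∈ zs I) : h ∈ zs (jn I g) := by
  have h3 : jn I g ≤ RingHom.ker (evA V h) := by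
    refine sup_le (fun a ha => h1 a ha) ?_
    rw [Ideal.map_le_iff_le_comap]
    intro a ha
    exact h2 a ha
  intro a ha
  exact h3 ha

theorem step_max {V : G →* GL (Fin m) k} (I : Ideal (AA V)) (g : G) (hmax : ¬ I < jn I g)
    (h : G) (hh : h ∈ zs I) : g * h ∈ zs I := by
  intro a ha
  have h1 : jn I g = I := by
    by_contra hne
    exact hmax (lt_of_le_of_ne (le_jn I g) (Ne.symm hne))
  have h2 := tr_mem_jn I g a ha
  rw [h1] at h2
  exact hh _ h2

theorem exists_max (V : G →* GL (Fin m) k) (p : Ideal (AA V) → Prop) (I₀ : Ideal (AA V))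
    (h0 : p I₀) : ∃ I, p I ∧ ∀ J, p J → ¬ I < J := by
  have hft := fg_A V
  have hNoe : IsNoetherianRing (AA V) := Algebra.FiniteType.isNoetherianRing k (AA V)
  obtain ⟨I, hI, hm⟩ := set_has_maximal_iff_noetherian.2 hNoe {I | p I} ⟨I₀, h0⟩
  exact ⟨I, hI, fun J hJ => hm J hJ⟩

theorem isClosed_zs [TopologicalSpace G] [TopologicalSpace k] [T2Space k] {V : G →* GL (Fin m) k}
    (hcont : ∀ a : AA V, Continuous (a : G → k)) (I : Ideal (AA V)) : IsClosed (zs I) := by
  have : zs I = ⋂ a : I, {g | ((a : AA V) : G → k) g = 0} := by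
    ext g
    rw [Set.mem_iInter]
    exact ⟨fun h a => h a a.2, fun h a ha => h ⟨a, ha⟩⟩
  rw [this]
  exact isClosed_iInter fun a => isClosed_singleton.preimage (hcont a)

variable [TopologicalSpace G] [IsTopologicalGroup G] [CompactSpace G] [MeasurableSpace G]
  [BorelSpace G]

/-- The stabiliser of a minimal closed set of positive measure is open. -/
theorem coset_aux (μ : Measure G) [IsProbabilityMeasure μ] [μ.IsMulLeftInvariant]
    (X Z : Set G) (hXc : IsClosed X)
    (hstep : ∀ g : G, μ (X ∩ {h | g * h ∈ X}) ≠ 0 → ∀ h ∈ X, g * h ∈ X)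
    (hXZ : ∀ x ∈ X, x ∈ Z) (hIpos : μ X ≠ 0) :
    ∃ (U : Subgroup G) (σ : G), IsOpen (U : Set G) ∧ ∀ u ∈ U, u * σ ∈ Z := by
  classical
  have hXm : MeasurableSet X := hXc.measurableSet
  have hsymm : ∀ g : G, μ (X ∩ {h | g⁻¹ * h ∈ X}) = μ (X ∩ {h | g * h ∈ X}) := by
    intro g
    have h1 : X ∩ {h | g * h ∈ X} = (fun h => g * h) ⁻¹' (X ∩ {h | g⁻¹ * h ∈ X}) := by
      ext h
      show (h ∈ X ∧ g * h ∈ X) ↔ (g * h ∈ X ∧ g⁻¹ * (g * h) ∈ X)
      rw [inv_mul_cancel_left]
      exact and_comm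
    rw [h1, measure_preimage_mul]
  let U : Subgroup G :=
    { carrier := {g | ∀ h, h ∈ X ↔ g * h ∈ X}
      mul_mem' := by
        intro a b ha hb h
        rw [hb h, ha (b * h), mul_assoc]
      one_mem' := by
        intro h
        rw [one_mul]
      inv_mem' := by
        intro a ha h
        rw [ha (a⁻¹ * h), mul_inv_cancel_left] }
  have hU : ∀ g, g ∉ U → μ (X ∩ {h | g * h ∈ X}) = 0 := by
    intro g hg
    by_contra hne
    apply hg
    have h1 := hstep g hne
    have h2 := hstep g⁻¹ (by rw [hsymm]; exact hne)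
    intro h
    refine ⟨h1 h, fun h3 => ?_⟩
    have := h2 _ h3
    rwa [inv_mul_cancel_left] at this
  have hfin : U.FiniteIndex := by
    by_contra hinf
    have hq : Infinite (G ⧸ U) := by
      by_contra h
      rw [not_infinite_iff_finite] at h
      exact hinf Subgroup.finiteIndex_of_finite_quotient
    have hbound : ∀ N : ℕ, (N : ENNReal) * μ X ≤ 1 := by
      intro N
      obtain ⟨t, ht⟩ := Infinite.exists_subset_card_eq (G ⧸ U) N
      let A : G ⧸ U → Set G := fun q => (fun h => (q.out)⁻¹ * h) ⁻¹' X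
      have hAm : ∀ q, MeasurableSet (A q) := fun q => measurable_const_mul _ hXm
      have hAμ : ∀ q, μ (A q) = μ X := fun q => measure_preimage_mul μ _ _
      have hdisj : Set.Pairwise (t : Set (G ⧸ U)) (Function.onFun (AEDisjoint μ) A) := by
        intro q _ q' _ hqq
        show μ (A q ∩ A q') = 0
        have h1 : (q'.out)⁻¹ * q.out ∉ U := by
          intro h2
          apply hqq
          have h3 : (QuotientGroup.mk q'.out : G ⧸ U) = QuotientGroup.mk q.out :=
            QuotientGroup.eq.2 h2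
          rw [QuotientGroup.out_eq', QuotientGroup.out_eq'] at h3
          exact h3.symm
        have h2 := hU _ h1
        have h3 : A q ∩ A q' = (fun h => (q.out)⁻¹ * h) ⁻¹'
            (X ∩ {h | (q'.out)⁻¹ * q.out * h ∈ X}) := by
          ext h
          show ((q.out)⁻¹ * h ∈ X ∧ (q'.out)⁻¹ * h ∈ X) ↔
            ((q.out)⁻¹ * h ∈ X ∧ (q'.out)⁻¹ * q.out * ((q.out)⁻¹ * h) ∈ X)
          rw [mul_assoc, mul_inv_cancel_left]
        rw [h3, measure_preimage_mul, h2]
      have h4 := measure_biUnion_finset₀ (μ := μ) hdisj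
        (fun q _ => (hAm q).nullMeasurableSet)
      rw [Finset.sum_congr rfl fun q _ => hAμ q, Finset.sum_const, nsmul_eq_mul, ht] at h4
      rw [← h4]
      exact prob_le_one
    obtain ⟨N, hN⟩ := ENNReal.exists_nat_mul_gt hIpos (ENNReal.one_ne_top)
    exact absurd (hbound N) (not_le.2 hN)
  have hUclosed : IsClosed (U : Set G) := by
    have h1 : (U : Set G) = (⋂ h : X, (fun g => g * (h : G)) ⁻¹' X) ∩
        ⋂ h : X, (fun g => g⁻¹ * (h : G)) ⁻¹' X := by
      ext g
      rw [Set.mem_inter_iff, Set.mem_iInter, Set.mem_iInter]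
      constructor
      · intro hg
        refine ⟨fun h => (hg h).1 h.2, fun h => ?_⟩
        have h2 := (hg (g⁻¹ * h)).2
        rw [mul_inv_cancel_left] at h2
        exact h2 h.2
      · rintro ⟨h1, h2⟩ h
        refine ⟨fun h3 => h1 ⟨h, h3⟩, fun h3 => ?_⟩
        have h4 := h2 ⟨_, h3⟩
        have h5 : g⁻¹ * (g * h) ∈ X := h4
        rwa [inv_mul_cancel_left] at h5
    rw [h1]
    refine IsClosed.inter ?_ ?_
    · exact isClosed_iInter fun h => hXc.preimage (continuous_mul_const (h : G))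
    · exact isClosed_iInter fun h => hXc.preimage
        (continuous_inv.mul continuous_const)
  obtain ⟨σ, hσ⟩ : X.Nonempty := nonempty_of_measure_ne_zero hIpos
  exact ⟨U, σ, Subgroup.isOpen_of_isClosed_of_finiteIndex _ hUclosed, fun u hu =>
    hXZ _ ((hu σ).1 hσ)⟩

theorem exists_coset (μ : Measure G) [IsProbabilityMeasure μ] [μ.IsMulLeftInvariant]
    [TopologicalSpace k] [T2Space k] (V : G →* GL (Fin m) k)
    (hcont : ∀ a : AA V, Continuous (a : G → k)) (I₀ : Ideal (AA V)) (hpos : μ (zs I₀) ≠ 0) :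
    ∃ (U : Subgroup G) (σ : G), IsOpen (U : Set G) ∧ ∀ u ∈ U, u * σ ∈ zs I₀ := by
  classical
  obtain ⟨I, ⟨hI0, hIpos⟩, hImax⟩ := exists_max V (fun I => I₀ ≤ I ∧ μ (zs I) ≠ 0) I₀
    ⟨le_rfl, hpos⟩
  have hXc : IsClosed (zs I) := isClosed_zs hcont I
  have hstep0 : ∀ g : G, μ (zs I ∩ {h | g * h ∈ zs I}) ≠ 0 → ∀ h ∈ zs I, g * h ∈ zs I := by
    intro g hg
    refine step_max I g (hImax _ ⟨hI0.trans (le_jn I g), fun h0 => hg ?_⟩)
    exact measure_mono_null (fun x hx => mem_zs_jn I g x hx.1 hx.2) h0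
  have hXI0 : ∀ x ∈ zs I, x ∈ zs I₀ := fun x hx a ha => hx a (hI0 ha)
  clear hImax hI0 hpos
  generalize zs I = X at *
  exact coset_aux μ X (zs I₀) hXc hstep0 hXI0 hIpos

end Pool.Agent.TH119.PP
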