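import Mathlib
import Pool.Agent.TH119.PP.Meas
import Pool.Agent.TH119.PP.Coset
import Pool.Agent.TH119.FT.Tensor

/-!
# Duals, sums and the ideal of the divisibility condition
-/

set_option autoImplicit false
set_option linter.unusedSectionVars false

namespace Pool.Agent.TH119.PP

open Polynomial Matrix
open Pool.Agent.TH119.OP (SS sp mem_sp)
open Pool.Agent.TH119.GO hiding integral_B finite_B no_der denom
open Pool.Agent.TH119.FT (mkHom mkHom_apply)

variable {G : Type*} [Group G] {k : Type*} [Field k] {m n : ℕ}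

/-- The dual. -/
noncomputable def dl (ρ : G →* GL (Fin n) k) : G →* GL (Fin n) k :=
  mkHom (fun g => (ρ g⁻¹ : Matrix (Fin n) (Fin n) k)ᵀ)
    (by rw [inv_one, map_one, Units.val_one, Matrix.transpose_one])
    (fun g h => by rw [_root_.mul_inv_rev, map_mul, Units.val_mul, Matrix.transpose_mul])

theorem dl_apply (ρ : G →* GL (Fin n) k) (g : G) :
    (dl ρ g : Matrix (Fin n) (Fin n) k) = (ρ g⁻¹ : Matrix (Fin n) (Fin n) k)ᵀ := rfl

theorem ent_dl (ρ : G →* GL (Fin n) k) (i j : Fin n) : ent (dl ρ) i j = ent' ρ j i := rfl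

theorem ent'_dl (ρ : G →* GL (Fin n) k) (i j : Fin n) : ent' (dl ρ) i j = ent ρ j i := by
  funext g
  show (ρ g⁻¹⁻¹ : Matrix (Fin n) (Fin n) k) j i = _
  rw [inv_inv]
  rfl

theorem AA_dl (W : G →* GL (Fin m) k) : AA (dl W) ≤ AA W := by
  refine AA_le_of _ _ (fun i j => ?_) (fun i j => ?_)
  · rw [ent_dl]
    exact ent'_mem W _ _
  · rw [ent'_dl]
    exact ent_mem W _ _

theorem isIntegral_of_le {R : Type*} [CommRing R] [Algebra k R] {A B : Subalgebra k R}
    (h : A ≤ B) {f : R} (hf : IsIntegral A f) : IsIntegral B f := by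
  obtain ⟨p, hp, hpf⟩ := hf
  refine ⟨p.map (Subalgebra.inclusion h).toRingHom, hp.map _, ?_⟩
  rw [eval₂_map]
  exact hpf

theorem sp_dl {ρ : G →* GL (Fin n) k} (h : sp ρ = ⊤) : sp (dl ρ) = ⊤ := by
  rw [eq_top_iff]
  intro M _
  have h1 : ∀ x ∈ sp ρ, xᵀ ∈ sp (dl ρ) := by
    intro x hx
    unfold sp at hx
    induction hx using Submodule.span_induction with
    | mem x hx =>
      obtain ⟨g, rfl⟩ := hx
      have h2 := mem_sp (dl ρ) g⁻¹
      rw [dl_apply, inv_inv] at h2
      exact h2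
    | zero => rw [Matrix.transpose_zero]; exact Submodule.zero_mem _
    | add a b _ _ ha hb => rw [Matrix.transpose_add]; exact Submodule.add_mem _ ha hb
    | smul c a _ ha => rw [Matrix.transpose_smul]; exact Submodule.smul_mem _ _ ha
  have h2 := h1 Mᵀ (by rw [h]; trivial)
  rwa [Matrix.transpose_transpose] at h2

theorem dv_transpose {N : ℕ} {A : Matrix (Fin n) (Fin n) k} {B : Matrix (Fin m) (Fin m) k}
    (h : Dv N A B) : Dv N Aᵀ Bᵀ := by
  rw [Dv, ← Matrix.transpose_pow, Matrix.charpoly_transpose, Matrix.charpoly_transpose]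
  exact h

/-- Integrality of the coefficients of `ρ` and of its dual. -/
theorem integral_both (W : G →* GL (Fin m) k) (ρ : G →* GL (Fin n) k) (hsp : sp ρ = ⊤)
    (s : GL (Fin n) k) (w : GL (Fin m) k) (N : ℕ) (hN : 0 < N)
    (hD : ∀ g, Dv N ((s * ρ g : GL (Fin n) k) : Matrix (Fin n) (Fin n) k)
      ((w * W g : GL (Fin m) k) : Matrix (Fin m) (Fin m) k))
    (hD' : ∀ g, Dv N (((s * ρ g)⁻¹ : GL (Fin n) k) : Matrix (Fin n) (Fin n) k)
      (((w * W g)⁻¹ : GL (Fin m) k) : Matrix (Fin m) (Fin m) k)) :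
    (∀ i j, IsIntegral (AA W) (ent ρ i j)) ∧ ∀ i j, IsIntegral (AA W) (ent' ρ i j) := by
  constructor
  · exact integral_ent_c W ρ hsp s w N hN fun g => by
      have := hD g
      rwa [Units.val_mul, Units.val_mul] at this
  · intro i j
    let s' : GL (Fin n) k :=
      { val := ((s⁻¹ : GL (Fin n) k) : Matrix (Fin n) (Fin n) k)ᵀ
        inv := (s : Matrix (Fin n) (Fin n) k)ᵀ
        val_inv := by
          rw [← Matrix.transpose_mul, ← Units.val_mul, mul_inv_cancel, Units.val_one,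
            Matrix.transpose_one]
        inv_val := by
          rw [← Matrix.transpose_mul, ← Units.val_mul, inv_mul_cancel, Units.val_one,
            Matrix.transpose_one] }
    have h1 := integral_ent_c (dl W) (dl ρ) (sp_dl hsp) s'
      (((w⁻¹ : GL (Fin m) k) : Matrix (Fin m) (Fin m) k)ᵀ) N hN (fun g => by
        have h2 := dv_transpose (hD' g)
        rw [_root_.mul_inv_rev, _root_.mul_inv_rev, Units.val_mul, Units.val_mul,
          Matrix.transpose_mul, Matrix.transpose_mul, ← map_inv, ← map_inv] at h2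
        exact h2) j i
    rw [ent_dl] at h1
    exact isIntegral_of_le (AA_dl W) h1

/-- The direct sum. -/
noncomputable def bd (ρ : G →* GL (Fin n) k) (W : G →* GL (Fin m) k) : G →* GL (Fin (n + m)) k :=
  mkHom (fun g => Matrix.reindex finSumFinEquiv finSumFinEquiv
      (Matrix.fromBlocks (ρ g : Matrix (Fin n) (Fin n) k) 0 0 (W g : Matrix (Fin m) (Fin m) k)))
    (by
      rw [map_one, map_one, Units.val_one, Units.val_one, Matrix.fromBlocks_one,
        Matrix.reindex_apply, Matrix.submatrix_one_equiv])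
    (fun g h => by
      rw [map_mul, map_mul, Units.val_mul, Units.val_mul]
      simp only [Matrix.reindex_apply]
      rw [Matrix.submatrix_mul_equiv, Matrix.fromBlocks_multiply]
      simp)

theorem bd_inl (ρ : G →* GL (Fin n) k) (W : G →* GL (Fin m) k) (g : G) (i j : Fin n) :
    (bd ρ W g : Matrix (Fin (n + m)) (Fin (n + m)) k) (finSumFinEquiv (Sum.inl i))
      (finSumFinEquiv (Sum.inl j)) = (ρ g : Matrix (Fin n) (Fin n) k) i j := by
  rw [bd, mkHom_apply, Matrix.reindex_apply, Matrix.submatrix_apply, Equiv.symm_apply_apply,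
    Equiv.symm_apply_apply, Matrix.fromBlocks_apply₁₁]

theorem bd_inr (ρ : G →* GL (Fin n) k) (W : G →* GL (Fin m) k) (g : G) (i j : Fin m) :
    (bd ρ W g : Matrix (Fin (n + m)) (Fin (n + m)) k) (finSumFinEquiv (Sum.inr i))
      (finSumFinEquiv (Sum.inr j)) = (W g : Matrix (Fin m) (Fin m) k) i j := by
  rw [bd, mkHom_apply, Matrix.reindex_apply, Matrix.submatrix_apply, Equiv.symm_apply_apply,
    Equiv.symm_apply_apply, Matrix.fromBlocks_apply₂₂]

theorem AA_bd_left (ρ : G →* GL (Fin n) k) (W : G →* GL (Fin m) k) : AA ρ ≤ AA (bd ρ W) := by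
  refine AA_le_of _ _ (fun i j => ?_) (fun i j => ?_)
  · have : ent ρ i j = ent (bd ρ W) (finSumFinEquiv (Sum.inl i)) (finSumFinEquiv (Sum.inl j)) := by
      funext g
      exact (bd_inl ρ W g i j).symm
    rw [this]
    exact ent_mem _ _ _
  · have : ent' ρ i j = ent' (bd ρ W) (finSumFinEquiv (Sum.inl i))
        (finSumFinEquiv (Sum.inl j)) := by
      funext g
      exact (bd_inl ρ W g⁻¹ i j).symm
    rw [this]
    exact ent'_mem _ _ _

theorem AA_bd_right (ρ : G →* GL (Fin n) k) (W : G →* GL (Fin m) k) : AA W ≤ AA (bd ρ W) := by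
  refine AA_le_of _ _ (fun i j => ?_) (fun i j => ?_)
  · have : ent W i j = ent (bd ρ W) (finSumFinEquiv (Sum.inr i)) (finSumFinEquiv (Sum.inr j)) := by
      funext g
      exact (bd_inr ρ W g i j).symm
    rw [this]
    exact ent_mem _ _ _
  · have : ent' W i j = ent' (bd ρ W) (finSumFinEquiv (Sum.inr i))
        (finSumFinEquiv (Sum.inr j)) := by
      funext g
      exact (bd_inr ρ W g⁻¹ i j).symm
    rw [this]
    exact ent'_mem _ _ _

/-- The remainder. -/
noncomputable def rem {V : G →* GL (Fin m) k} {a b : ℕ} (N : ℕ) (A : Matrix (Fin a) (Fin a) (AA V))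
    (B : Matrix (Fin b) (Fin b) (AA V)) : (AA V)[X] :=
  (expand (AA V) N (B ^ N).charpoly) ^ a %ₘ A.charpoly

theorem rem_zero {V : G →* GL (Fin m) k} {a b : ℕ} (N : ℕ) (A : Matrix (Fin a) (Fin a) (AA V))
    (B : Matrix (Fin b) (Fin b) (AA V)) (g : G) :
    (∀ i, evA V g ((rem N A B).coeff i) = 0) ↔
      Dv N (A.map (evA V g)) (B.map (evA V g)) := by
  have h1 : (rem N A B).map (evA V g) = (expand k N ((B.map (evA V g)) ^ N).charpoly) ^ a %ₘ
      (A.map (evA V g)).charpoly := by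
    rw [rem, Polynomial.map_modByMonic _ (Matrix.charpoly_monic _), Polynomial.map_pow, map_expand,
      ← Matrix.charpoly_map, ← Matrix.charpoly_map, Matrix.map_pow]
  rw [Dv, ← modByMonic_eq_zero_iff_dvd (Matrix.charpoly_monic _), ← h1, Polynomial.ext_iff]
  simp only [coeff_map, coeff_zero]

/-- The ideal of the condition. -/
noncomputable def idl (ρ : G →* GL (Fin n) k) (W : G →* GL (Fin m) k) (N : ℕ) :
    Ideal (AA (bd ρ W)) :=
  Ideal.span (Set.range (rem N
      (Matrix.of fun i j => (⟨ent ρ i j, AA_bd_left ρ W (ent_mem ρ i j)⟩ : AA (bd ρ W)))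
      (Matrix.of fun i j => (⟨ent W i j, AA_bd_right ρ W (ent_mem W i j)⟩ : AA (bd ρ W)))).coeff ∪
    Set.range (rem N
      (Matrix.of fun i j => (⟨ent' ρ i j, AA_bd_left ρ W (ent'_mem ρ i j)⟩ : AA (bd ρ W)))
      (Matrix.of fun i j => (⟨ent' W i j, AA_bd_right ρ W (ent'_mem W i j)⟩ :
        AA (bd ρ W)))).coeff)

theorem mem_zs_idl (ρ : G →* GL (Fin n) k) (W : G →* GL (Fin m) k) (N : ℕ) (g : G) :
    g ∈ zs (idl ρ W N) ↔ Dv N (ρ g : Matrix (Fin n) (Fin n) k) (W g : Matrix (Fin m) (Fin m) k) ∧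
      Dv N (ρ g⁻¹ : Matrix (Fin n) (Fin n) k) (W g⁻¹ : Matrix (Fin m) (Fin m) k) := by
  have h1 := rem_zero (V := bd ρ W) N
      (Matrix.of fun i j => (⟨ent ρ i j, AA_bd_left ρ W (ent_mem ρ i j)⟩ : AA (bd ρ W)))
      (Matrix.of fun i j => (⟨ent W i j, AA_bd_right ρ W (ent_mem W i j)⟩ : AA (bd ρ W))) g
  have h2 := rem_zero (V := bd ρ W) N
      (Matrix.of fun i j => (⟨ent' ρ i j, AA_bd_left ρ W (ent'_mem ρ i j)⟩ : AA (bd ρ W)))
      (Matrix.of fun i j => (⟨ent' W i j, AA_bd_right ρ W (ent'_mem W i j)⟩ : AA (bd ρ W))) g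
  have h3 : g ∈ zs (idl ρ W N) ↔ idl ρ W N ≤ RingHom.ker (evA (bd ρ W) g) := Iff.rfl
  rw [h3, idl, Ideal.span_le, Set.union_subset_iff]
  refine and_congr ?_ ?_
  · refine Iff.trans ?_ h1
    rw [Set.range_subset_iff]
    rfl
  · refine Iff.trans ?_ h2
    rw [Set.range_subset_iff]
    rfl

end Pool.Agent.TH119.PP
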